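import Pool.Agent.Q216.RK.Stm

set_option autoImplicit false

/-! Project RK (helper216): the lemma jobs FAIR, STOP, TREE, BRI, CNT about lists of literals. -/

namespace Pool.Agent.Q129.RK

open Pool.Agent.Q216.RK

lemma mem_lits {n : ℕ} {l : ℕ × Bool} : l ∈ lits n ↔ l.1 < n := by
  unfold lits
  simp only [List.mem_flatMap, List.mem_range]
  constructor
  · rintro ⟨j, hj, h⟩
    simp at h
    rcases h with h | h <;> rw [h] <;> exact hj
  · intro h
    refine ⟨l.1, h, ?_⟩
    obtain ⟨j, b⟩ := l
    cases b <;> simp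

lemma mem_conjs {l : Cj} : ∀ {m : ℕ} {K : Cj}, K ∈ conjs l m ↔ K.length ≤ m ∧ ∀ a ∈ K, a ∈ l := by
  intro m
  induction m with
  | zero =>
    intro K
    simp only [conjs, List.mem_singleton, Nat.le_zero, List.length_eq_zero_iff]
    constructor
    · rintro rfl; simp
    · exact fun h => h.1
  | succ m ih =>
    intro K
    simp only [conjs, List.mem_cons, List.mem_flatMap, List.mem_map]
    constructor
    · rintro (rfl | ⟨K', h1, a, ha, rfl⟩)
      · simp
      · have := ih.mp h1
        refine ⟨by simp [this.1], ?_⟩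
        intro b hb
        rcases List.mem_cons.mp hb with rfl | hb
        · exact ha
        · exact this.2 b hb
    · rintro ⟨h1, h2⟩
      cases K with
      | nil => exact Or.inl rfl
      | cons a K' =>
        refine Or.inr ⟨K', ih.mpr ⟨by simpa using h1, fun b hb => h2 b (List.mem_cons_of_mem _ hb)⟩, a,
          h2 a (by simp), rfl⟩

lemma conjs_cons (l : Cj) (m : ℕ) : ∃ R, conjs l m = [] :: R := by
  cases m with
  | zero => exact ⟨[], rfl⟩
  | succ m => exact ⟨_, rfl⟩

lemma adm_some {S : Smp} {C : List Cj} {p K : Cj} (h : adm S C p = some K) :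
    K ∈ C ∧ freshB p K = true ∧ cnt S (p ++ K) false = 0 := by
  unfold adm at h
  have := List.mem_of_mem_head? h
  rw [List.mem_filter] at this
  simpa using this

lemma fresh_nil (p : Cj) : freshB p [] = true := rfl

lemma adm_nil {S : Smp} {C : Cj} {m : ℕ} {p : Cj} (h : cnt S p false = 0) : adm S (conjs C m) p = some [] := by
  obtain ⟨R, hR⟩ := conjs_cons C m
  unfold adm
  rw [hR, List.filter_cons_of_pos]
  · rfl
  · simp [fresh_nil, h]

lemma path_succ (A : Cj → Option Cj) (x : List Bool) (t : ℕ) : path A x (t + 1) = stp A x (path A x t) := by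
  unfold path; rw [Function.iterate_succ_apply']

lemma path_const {A : Cj → Option Cj} {x : List Bool} {s : ℕ} (h : stp A x (path A x s) = path A x s) :
    ∀ t, s ≤ t → path A x t = path A x s := by
  intro t ht
  induction t, ht using Nat.le_induction with
  | base => rfl
  | succ t _ ih => rw [path_succ, ih, h]

theorem t_FAIR : S_FAIR := by
  intro n m S π K h
  obtain ⟨h1, h2, -⟩ := adm_some h
  obtain ⟨h3, h4⟩ := mem_conjs.mp h1
  exact ⟨h3, h2, fun l hl => mem_lits.mp (h4 l hl)⟩

lemma satB_append (p q : Cj) (x : List Bool) : satB (p ++ q) x = (satB p x && satB q x) := by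
  unfold satB; exact List.all_append

lemma satB_iff {K : Cj} {x : List Bool} : satB K x = true ↔ ∀ l ∈ K, x[l.1]? = some l.2 := by
  unfold satB litB; simp

theorem t_STOP : S_STOP := by
  intro S C m t x h
  set A := adm S (conjs C m) with hA
  unfold aliveB at h
  rw [List.all_eq_false] at h
  obtain ⟨s, hs, h2⟩ := h
  have hst : s < t := List.mem_range.mp hs
  cases hK : A (path A x s) with
  | none =>
    have h3 : stp A x (path A x s) = path A x s := by unfold stp; rw [hK]
    left
    rw [path_const h3 t hst.le, hK]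
  | some K =>
    rw [hK] at h2
    have h4 := adm_some hK
    by_cases hK0 : K = []
    · have h3 : stp A x (path A x s) = path A x s := by unfold stp; rw [hK, hK0]; simp
      right
      rw [path_const h3 t hst.le]
      simpa [hK0] using h4.2.2
    · have h5 : satB K x = true := by
        by_contra h6
        rw [Bool.not_eq_true] at h6
        apply h2
        simp [hK0, h6]
      have h6 : path A x (s + 1) = path A x s ++ K := by
        rw [path_succ]
        unfold stp
        rw [hK]
        refine congrArg (fun z => path A x s ++ z) ?_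
        calc K.map (fun l => (l.1, x.getD l.1 false)) = K.map id := by
              refine List.map_congr_left fun l hl => ?_
              have := satB_iff.mp h5 l hl
              simp [List.getD, this]
          _ = K := by simp
      have h7 : cnt S (path A x (s + 1)) false = 0 := by rw [h6]; exact h4.2.2
      have h8 : stp A x (path A x (s + 1)) = path A x (s + 1) := by
        unfold stp
        rw [hA, adm_nil h7]
        simp
      right
      rw [path_const h8 t hst]
      exact h7

lemma hasVar_iff {K : Cj} {j : ℕ} : hasVar K j = true ↔ ∃ l ∈ K, l.1 = j := by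
  unfold hasVar; simp

lemma fresh_iff {p K : Cj} (h : freshB p K = true) :
    (K.map Prod.fst).Nodup ∧ ∀ l ∈ K, ∀ l' ∈ p, l'.1 ≠ l.1 := by
  unfold freshB at h
  rw [List.all_eq_true] at h
  constructor
  · rw [List.nodup_iff_count_le_one]
    intro a
    by_cases ha : a ∈ K.map Prod.fst
    · obtain ⟨l, hl, rfl⟩ := List.mem_map.mp ha
      have h1 := h l hl
      simp only [Bool.and_eq_true, decide_eq_true_eq] at h1
      have h2 : List.count l.1 (K.map Prod.fst) = (K.filter (fun m => decide (m.1 = l.1))).length := by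
        rw [List.count, List.countP_map, List.countP_eq_length_filter]
        congr 1
      rw [h2]; exact h1.2
    · rw [List.count_eq_zero_of_not_mem ha]; omega
  · intro l hl l' hl' he
    have h1 := h l hl
    simp only [Bool.and_eq_true, Bool.not_eq_true', decide_eq_true_eq] at h1
    have h2 : hasVar p l.1 = true := hasVar_iff.mpr ⟨l', hl', he⟩
    rw [h2] at h1
    exact absurd h1.1 (by simp)

lemma ofFn_get {n : ℕ} (x : Pt n) {j : ℕ} (hj : j < n) : (List.ofFn x)[j]? = some ((List.ofFn x).getD j false) := by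
  rw [List.getD, List.getElem?_ofFn]
  simp [hj]

theorem t_TREE : S_TREE := by
  intro n m A hA t
  induction t with
  | zero =>
    refine ⟨fun x => ⟨⟨by simp [path], by simp [path]⟩, by simp [path], by simp [path, satB]⟩, ?_⟩
    intro x y _
    rfl
  | succ t ih =>
    constructor
    · intro x
      obtain ⟨⟨a1, a2⟩, a3, a4⟩ := ih.1 x
      rw [path_succ]
      unfold stp
      cases hK : A (path A (List.ofFn x) t) with
      | none => exact ⟨⟨a1, a2⟩, a3.trans (Nat.mul_le_mul_left _ (by omega)), a4⟩
      | some K =>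
        obtain ⟨b1, b2, b3⟩ := hA _ _ hK
        obtain ⟨c1, c2⟩ := fresh_iff b2
        refine ⟨⟨?_, ?_⟩, ?_, ?_⟩
        · simp only [List.map_append, List.map_map]
          have e1 : K.map (Prod.fst ∘ fun l : ℕ × Bool => (l.1, (List.ofFn x).getD l.1 false)) = K.map Prod.fst :=
            List.map_congr_left fun l _ => rfl
          rw [e1, List.nodup_append]
          refine ⟨a1, c1, ?_⟩
          intro u hu v hv huv
          obtain ⟨l', hl', rfl⟩ := List.mem_map.mp hu
          obtain ⟨l, hl, rfl⟩ := List.mem_map.mp hv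
          exact c2 l hl l' hl' huv
        · intro l hl
          rcases List.mem_append.mp hl with h | h
          · exact a2 l h
          · obtain ⟨l', hl', rfl⟩ := List.mem_map.mp h
            exact b3 l' hl'
        · simp only [List.length_append, List.length_map]
          rw [Nat.mul_succ]
          exact Nat.add_le_add a3 b1
        · simp only [satB_append]
          rw [a4, Bool.true_and]
          refine satB_iff.mpr fun l hl => ?_
          obtain ⟨l', hl', rfl⟩ := List.mem_map.mp hl
          exact ofFn_get x (b3 l' hl')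
    · intro x y h
      rw [path_succ, path_succ]
      rw [path_succ] at h
      have h1 : satB (path A (List.ofFn y) t) (List.ofFn x) = true := by
        unfold stp at h
        cases hK : A (path A (List.ofFn y) t) with
        | none => rw [hK] at h; exact h
        | some K =>
          rw [hK] at h
          simp only [satB_append, Bool.and_eq_true] at h
          exact h.1
      have h2 := ih.2 x y h1
      rw [h2]
      unfold stp at h ⊢
      cases hK : A (path A (List.ofFn y) t) with
      | none => rfl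
      | some K =>
        rw [hK] at h
        simp only [satB_append, Bool.and_eq_true] at h
        refine congrArg (fun z => path A (List.ofFn y) t ++ z) (List.map_congr_left fun l hl => ?_)
        have h3 := satB_iff.mp h.2 (l.1, (List.ofFn y).getD l.1 false) (List.mem_map.mpr ⟨l, hl, rfl⟩)
        have h4 : (List.ofFn x).getD l.1 false = (List.ofFn y).getD l.1 false := by
          simp only at h3
          rw [List.getD, h3]
          rfl
        rw [h4]

lemma satT_iff' {n : ℕ} {T : Tm n} {x : Pt n} : satT T x = true ↔ ∀ i b, T i = some b → x i = b := by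
  unfold satT; simp

lemma satB_ofFn {n : ℕ} {K : Cj} {x : Pt n} : satB K (List.ofFn x) = true ↔
    ∀ l ∈ K, ∃ h : l.1 < n, x ⟨l.1, h⟩ = l.2 := by
  rw [satB_iff]
  refine forall_congr' fun l => forall_congr' fun _ => ?_
  rw [List.getElem?_ofFn]
  constructor
  · intro h
    split_ifs at h with h1
    exact ⟨h1, by simpa using h⟩
  · rintro ⟨h1, h2⟩
    rw [dif_pos h1, h2]

lemma tm_mem {n : ℕ} {K : Cj} {i : Fin n} {b : Bool} (h : tm n K i = some b) : ((i : ℕ), b) ∈ K := by
  unfold tm at h
  rw [Option.map_eq_some_iff] at h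
  obtain ⟨l, h1, h2⟩ := h
  have h3 := List.mem_of_find?_eq_some h1
  have h4 := List.find?_some h1
  simp only [decide_eq_true_eq] at h4
  rw [← h4, ← h2]
  exact h3

lemma tm_none {n : ℕ} {K : Cj} {i : Fin n} : tm n K i ≠ none ↔ ∃ l ∈ K, l.1 = (i : ℕ) := by
  unfold tm
  rw [Ne, Option.map_eq_none_iff, List.find?_eq_none]
  constructor
  · intro h
    by_contra h1
    refine h fun l hl h2 => h1 ⟨l, hl, by simpa using h2⟩
  · rintro ⟨l, hl, h1⟩ h
    exact h l hl (by simpa using h1)

lemma tm_iff {n : ℕ} {K : Cj} (hK : (K.map Prod.fst).Nodup) {i : Fin n} {b : Bool} :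
    tm n K i = some b ↔ ((i : ℕ), b) ∈ K := by
  refine ⟨tm_mem, fun h => ?_⟩
  have h1 : tm n K i ≠ none := tm_none.mpr ⟨_, h, rfl⟩
  obtain ⟨c, hc⟩ := Option.ne_none_iff_exists'.mp h1
  have h2 := tm_mem hc
  have h3 : ((i : ℕ), b) = ((i : ℕ), c) := List.inj_on_of_nodup_map hK h h2 rfl
  rw [hc]
  exact congrArg some (Prod.ext_iff.mp h3).2.symm

lemma vars_tm {n : ℕ} {K : Cj} (hK : Wf n K) : len (tm n K) = K.length := by
  unfold len
  have h1 : (vars (tm n K)).map Fin.valEmbedding = (K.map Prod.fst).toFinset := by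
    ext j
    simp only [Finset.mem_map, vars, Finset.mem_filter, Finset.mem_univ, true_and, tm_none,
      List.mem_toFinset, List.mem_map, Fin.valEmbedding_apply]
    constructor
    · rintro ⟨i, ⟨l, h1, h2⟩, rfl⟩
      exact ⟨l, h1, h2⟩
    · rintro ⟨l, h1, rfl⟩
      exact ⟨⟨l.1, hK.2 l h1⟩, ⟨l, h1, rfl⟩, rfl⟩
  rw [← Finset.card_map Fin.valEmbedding, h1, List.toFinset_card_of_nodup hK.1, List.length_map]

lemma satB_tm {n : ℕ} {K : Cj} (hK : ∀ l ∈ K, l.1 < n)
    (hc : ∀ j b c, (j, b) ∈ K → (j, c) ∈ K → b = c) (x : Pt n) : satB K (List.ofFn x) = satT (tm n K) x := by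
  rw [Bool.eq_iff_iff, satB_ofFn, satT_iff']
  constructor
  · intro h i b hb
    obtain ⟨h1, h2⟩ := h _ (tm_mem hb)
    exact h2
  · rintro h ⟨j, b⟩ hl
    have hj := hK _ hl
    refine ⟨hj, ?_⟩
    have h1 : tm n K ⟨j, hj⟩ ≠ none := tm_none.mpr ⟨_, hl, rfl⟩
    obtain ⟨c, hc'⟩ := Option.ne_none_iff_exists'.mp h1
    have h2 := hc j b c hl (tm_mem hc')
    rw [h _ _ hc', h2]

lemma wf_cons {n : ℕ} {K : Cj} (hK : Wf n K) : ∀ j b c, (j, b) ∈ K → (j, c) ∈ K → b = c := by
  intro j b c h1 h2
  have h3 : (j, b) = (j, c) := List.inj_on_of_nodup_map hK.1 h1 h2 rfl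
  exact (Prod.ext_iff.mp h3).2

lemma mem_tl {n : ℕ} {T : Tm n} {l : ℕ × Bool} : l ∈ tl T ↔ ∃ i : Fin n, (i : ℕ) = l.1 ∧ T i = some l.2 := by
  unfold tl
  simp only [List.mem_filterMap, List.mem_finRange, true_and, Option.map_eq_some_iff]
  constructor
  · rintro ⟨i, b, h1, rfl⟩
    exact ⟨i, rfl, h1⟩
  · rintro ⟨i, h1, h2⟩
    exact ⟨i, l.2, h2, by rw [h1]⟩

lemma wf_tl {n : ℕ} (T : Tm n) : Wf n (tl T) := by
  constructor
  · unfold tl
    rw [List.map_filterMap]
    refine List.Nodup.filterMap ?_ (List.nodup_finRange n)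
    intro a a' b hb hb'
    simp only [Option.mem_def, Option.map_map, Option.map_eq_some_iff] at hb hb'
    obtain ⟨c, -, h1⟩ := hb
    obtain ⟨c', -, h2⟩ := hb'
    simp only [Function.comp] at h1 h2
    exact Fin.ext (h1.trans h2.symm)
  · intro l hl
    obtain ⟨i, h1, -⟩ := mem_tl.mp hl
    rw [← h1]; exact i.2

lemma tm_tl {n : ℕ} (T : Tm n) : tm n (tl T) = T := by
  funext i
  cases h : T i with
  | none =>
    by_contra h1
    obtain ⟨l, h2, h3⟩ := tm_none.mp h1
    obtain ⟨j, h4, h5⟩ := mem_tl.mp h2
    have : j = i := Fin.ext (h4.trans h3)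
    rw [this, h] at h5
    cases h5
  | some b => exact (tm_iff (wf_tl T).1).mpr (mem_tl.mpr ⟨i, rfl, h⟩)

theorem t_BRI : S_BRI := by
  refine ⟨fun n K hK => ⟨vars_tm hK, satB_tm hK.2 (wf_cons hK), fun i => ?_⟩, fun n K => ?_, fun n T => ?_, ?_⟩
  · rw [tm_none, hasVar_iff]
  · by_cases h : ∀ x : Pt n, satB K (List.ofFn x) = false
    · exact Or.inl h
    · push Not at h
      obtain ⟨x0, h0⟩ := h
      rw [Bool.ne_false_iff, satB_ofFn] at h0
      refine Or.inr ⟨tm n K, satB_tm (fun l hl => (h0 l hl).1) ?_⟩
      intro j b c hb hc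
      obtain ⟨h1, h2⟩ := h0 _ hb
      obtain ⟨h3, h4⟩ := h0 _ hc
      exact h2.symm.trans h4
  · refine ⟨fun x => ?_, ?_, wf_tl T, fun i b => ?_⟩
    · rw [satB_tm (wf_tl T).2 (wf_cons (wf_tl T)), tm_tl]
    · rw [← vars_tm (wf_tl T), tm_tl]
    · rw [mem_tl]
      constructor
      · rintro ⟨j, h1, h2⟩
        have : j = i := Fin.ext h1
        rw [← this]; exact h2
      · exact fun h => ⟨i, rfl, h⟩
  · intro n m T hT
    refine mem_conjs.mpr ⟨?_, fun l hl => mem_lits.mpr ((wf_tl T).2 l hl)⟩
    rw [← vars_tm (wf_tl T), tm_tl]; exact hT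

theorem t_CNT : S_CNT := by
  intro n N F xs K T b h
  unfold cnt smp frq
  rw [List.ofFn_eq_map, List.filter_map, List.length_map]
  have h1 : (Finset.univ.filter (fun j => satT T (xs j) = true ∧ on F (xs j) = b)) =
      ((List.finRange N).filter ((fun p : List Bool × Bool => satB K p.1 && decide (p.2 = b)) ∘
        fun j => (List.ofFn (xs j), on F (xs j)))).toFinset := by
    ext j
    simp [h]
  rw [h1, List.toFinset_card_of_nodup ((List.nodup_finRange N).filter _)]

end Pool.Agent.Q129.RK
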